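import Mathlib
import Pool.Agent.J4.H85.UC11

/-!
# Density of hyperbolicity for long compositions of arbitrary polynomials

Let `T 0, …, T (M - 1)` be arbitrary polynomials of degrees between `2` and `D` in a bounded family.
The composition `(T (M - 1) + t (M - 1)) ∘ … ∘ (T 0 + t 0)` is hyperbolic except for a proportion
`C exp (- c M)` of the vectors `t` with `|t i| < ε`, where `C` and `c > 0` do not depend on the `T i`.
In particular, if `M` is large (depending only on `D`, the bounds, `ε` and `ρ`), every such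
composition becomes hyperbolic after a change by less than `ε` of the constant coefficients of at most
`ρ M` of its `M` factors. Question Q1 asks for this in the case `M = 1`.
-/

set_option autoImplicit false

open Polynomial Filter Topology MeasureTheory Metric

namespace Pool.Agent.Results.MP_28f8a1_an.ArbitraryCompositions

/-- The polynomial as a self-map of the plane. -/
def map (T : ℂ[X]) : ℂ → ℂ := fun w : ℂ => T.eval w

/-- The orbit of `z` escapes to infinity. -/
def Escapes (T : ℂ[X]) (z : ℂ) : Prop :=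
  Tendsto (fun k : ℕ => ‖(map T)^[k] z‖) atTop atTop

/-- The orbit of `z` is attracted by a sink (attracting periodic point) of `T`. -/
def Attracted (T : ℂ[X]) (z : ℂ) : Prop :=
  ∃ n : ℕ, 0 < n ∧ ∃ x : ℂ, (map T)^[n] x = x ∧ ‖deriv ((map T)^[n]) x‖ < 1 ∧
    Tendsto (fun k : ℕ => (map T)^[n * k] z) atTop (𝓝 x)

/-- `T` is hyperbolic: every critical point escapes or is attracted by a sink. -/
def Hyperbolic (T : ℂ[X]) : Prop :=
  ∀ c : ℂ, (derivative T).eval c = 0 → Escapes T c ∨ Attracted T c

/-- The laws of the perturbations: probability measures on the disc `|s| < ε` such that all discs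
centred in this disc have positive measure (for instance the uniform distribution). -/
structure Law (ε : ℝ) (ν : Measure ℂ) : Prop where
  prob : IsProbabilityMeasure ν
  supp : ν (ball (0 : ℂ) ε)ᶜ = 0
  full : ∀ x ∈ ball (0 : ℂ) ε, ∀ r : ℝ, 0 < r → ν (ball x r) ≠ 0

/-- `P` has degree between `2` and `D`, coefficients of modulus at most `a` and a leading coefficient
of modulus at least `1 / a`. -/
def Bounded (D : ℕ) (a : ℝ) (P : ℂ[X]) : Prop :=
  2 ≤ P.natDegree ∧ P.natDegree ≤ D ∧ (∀ i, ‖P.coeff i‖ ≤ a) ∧ 1 / a ≤ ‖P.leadingCoeff‖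

/-- The composition `(T (M - 1) + t (M - 1)) ∘ … ∘ (T 1 + t 1) ∘ (T 0 + t 0)`. -/
noncomputable def noisy : (M : ℕ) → (Fin M → ℂ[X]) → (Fin M → ℂ) → ℂ[X]
  | 0, _, _ => X
  | M + 1, T, t => (T (Fin.last M) + C (t (Fin.last M))).comp
      (noisy M (fun i => T i.castSucc) (fun i => t i.castSucc))

theorem noisy_eq (n : ℕ) (T : Fin n → ℂ[X]) (t : Fin n → ℂ) {T' : ℕ → ℂ[X]} {τ : ℕ → ℂ}
    (h : ∀ i : Fin n, T' i = T i) (h' : ∀ i : Fin n, τ i = t i) :
    noisy n T t = Pool.Agent.J4.H85.UC.comps T' τ n := by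
  induction n with
  | zero => rfl
  | succ n ih =>
    rw [noisy, Pool.Agent.J4.H85.UC.comps, ih (fun i => T i.castSucc) (fun i => t i.castSucc)
      (fun i => h i.castSucc) (fun i => h' i.castSucc), ← h (Fin.last n), ← h' (Fin.last n),
      Fin.val_last]

theorem noisy_per {M : ℕ} (hM : 0 < M) (T : Fin M → ℂ[X]) (t : Fin M → ℂ) :
    noisy M T t = Pool.Agent.J4.H85.UC.comps (fun i => T ⟨i % M, Nat.mod_lt _ hM⟩)
      (Pool.Agent.J4.H85.UC.tau hM t) M := by
  apply noisy_eq
  · intro i
    congr 1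
    apply Fin.ext
    exact Nat.mod_eq_of_lt i.2
  · intro i
    unfold Pool.Agent.J4.H85.UC.tau
    congr 1
    apply Fin.ext
    exact Nat.mod_eq_of_lt i.2

/-- Let `D ≥ 2`, `a ≥ 1` and `ε > 0`, and let all polynomials `T i` have degrees between `2` and `D`,
coefficients of modulus at most `a` and leading coefficients of modulus at least `1 / a`; they are
arbitrary otherwise.

(1) Let `t 0, …, t (M - 1)` be independent with a law `ν` of full support in the disc of radius `ε`.
There are constants `C` and `c > 0`, which depend only on `D`, `a`, `ε` and `ν`, such that for all `M`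
and all `T 0, …, T (M - 1)` the polynomial `(T (M - 1) + t (M - 1)) ∘ … ∘ (T 0 + t 0)` is hyperbolic
with probability at least `1 - C exp (- c M)`.

(2) Let `ρ > 0`. There is `M₀`, depending only on `D`, `a`, `ε` and `ρ`, such that for all `M ≥ M₀` and
all `T 0, …, T (M - 1)` there are `t 0, …, t (M - 1)` of modulus less than `ε`, at most `ρ M` of them
different from `0`, for which this polynomial is hyperbolic. -/
theorem result (D : ℕ) (a ε : ℝ) (ha : 1 ≤ a) (hε : 0 < ε) :
    (∀ ν : Measure ℂ, Law ε ν → ∃ C c : ℝ, 0 < C ∧ 0 < c ∧ ∀ (M : ℕ) (T : Fin M → ℂ[X]),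
      (∀ i, Bounded D a (T i)) →
      (Measure.pi fun _ : Fin M => ν) {t : Fin M → ℂ | ¬ Hyperbolic (noisy M T t)} ≤
        ENNReal.ofReal (C * Real.exp (-(c * M)))) ∧
    ∀ ρ : ℝ, 0 < ρ → ∃ M₀ : ℕ, ∀ (M : ℕ) (T : Fin M → ℂ[X]), M₀ ≤ M →
      (∀ i, Bounded D a (T i)) → ∃ t : Fin M → ℂ, (∀ i, ‖t i‖ < ε) ∧
        (({i | t i ≠ 0} : Set (Fin M)).ncard : ℝ) ≤ ρ * M ∧ Hyperbolic (noisy M T t) := by
  have key : ∀ P : ℂ[X], Pool.Agent.J4.H85.NC.Hyp P → Hyperbolic P := fun P hP => hP
  constructor
  · intro ν hν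
    obtain ⟨C, c, hC, hc, h⟩ := Pool.Agent.J4.H85.UC.main D ha hε
      (ν := ν) ⟨hν.prob, hν.supp, hν.full⟩
    refine ⟨C, c, by linarith, hc, fun M T hT => ?_⟩
    rcases Nat.eq_zero_or_pos M with rfl | hM
    · have h0 : {t : Fin 0 → ℂ | ¬ Hyperbolic (noisy 0 T t)} = ∅ := by
        rw [Set.eq_empty_iff_forall_notMem]
        intro t ht
        apply ht
        intro z hz
        simp [noisy] at hz
      rw [h0, measure_empty]
      exact zero_le
    · refine le_trans (measure_mono ?_) (h M hM (fun i => T ⟨i % M, Nat.mod_lt _ hM⟩)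
        (fun i => hT _) (fun i => by simp only [Nat.add_mod_right]))
      intro t ht ht'
      apply ht
      rw [noisy_per hM]
      exact key _ ht'
  · intro ρ hρ
    obtain ⟨M₀, h⟩ := Pool.Agent.J4.H85.UC.sparse D ha hε hρ
    refine ⟨max M₀ 1, fun M T hMM hT => ?_⟩
    have hM : 0 < M := lt_of_lt_of_le one_pos ((le_max_right _ _).trans hMM)
    obtain ⟨t, ht1, ht2, ht3⟩ := h M hM ((le_max_left _ _).trans hMM)
      (fun i => T ⟨i % M, Nat.mod_lt _ hM⟩) (fun i => hT _)
      (fun i => by simp only [Nat.add_mod_right])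
    refine ⟨t, ht1, ht2, ?_⟩
    rw [noisy_per hM]
    exact key _ ht3

end Pool.Agent.Results.MP_28f8a1_an.ArbitraryCompositions
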