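import Mathlib
import Pool.Agent.J4.H85.NC5

/-!
# Compositions of perturbations of a polynomial are hyperbolic with overwhelming probability

Let `P` be an arbitrary polynomial of degree at least two. The composition of `P ^ n` with `L` factors
`P + t i`, `|t i| < ε`, is hyperbolic except for an exponentially small proportion of the vectors
`t = (t 0, …, t (L - 1))`. In particular the iterate `P ^ (n + L)` becomes hyperbolic after an
arbitrarily small change of `O (log n)` of its `n + L` factors.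
-/

set_option autoImplicit false

open Polynomial Filter Topology MeasureTheory Metric

namespace Pool.Agent.Results.MP_28f8a1_an.NoisyCompositions

/-- The polynomial as a self-map of the plane. -/
def map (T : ℂ[X]) : ℂ → ℂ := fun w : ℂ => T.eval w

/-- The orbit of `z` escapes to infinity. -/
def Escapes (T : ℂ[X]) (z : ℂ) : Prop :=
  Tendsto (fun k : ℕ => ‖(map T)^[k] z‖) atTop atTop

/-- The orbit of `z` is attracted by a sink (attracting periodic point) of `T`. -/
def Attracted (T : ℂ[X]) (z : ℂ) : Prop :=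
  ∃ n : ℕ, 0 < n ∧ ∃ x : ℂ, (map T)^[n] x = x ∧ ‖deriv ((map T)^[n]) x‖ < 1 ∧
    Tendsto (fun k : ℕ => (map T)^[n * k] z) atTop (𝓝 x)

/-- `T` is hyperbolic: every critical point escapes or is attracted by a sink. -/
def Hyperbolic (T : ℂ[X]) : Prop :=
  ∀ c : ℂ, (derivative T).eval c = 0 → Escapes T c ∨ Attracted T c

/-- The laws of the perturbations: probability measures on the disc `|s| < ε` such that all discs
centred in this disc have positive measure (for instance the uniform distribution). -/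
structure Law (ε : ℝ) (ν : Measure ℂ) : Prop where
  prob : IsProbabilityMeasure ν
  supp : ν (ball (0 : ℂ) ε)ᶜ = 0
  full : ∀ x ∈ ball (0 : ℂ) ε, ∀ r : ℝ, 0 < r → ν (ball x r) ≠ 0

/-- The composition `(P + t (L - 1)) ∘ … ∘ (P + t 1) ∘ (P + t 0)`. -/
noncomputable def noisy (P : ℂ[X]) : (L : ℕ) → (Fin L → ℂ) → ℂ[X]
  | 0, _ => X
  | L + 1, t => (P + C (t (Fin.last L))).comp (noisy P L fun i => t i.castSucc)

theorem noisy_eq (P : ℂ[X]) (L : ℕ) (t : Fin L → ℂ) {τ : ℕ → ℂ} (h : ∀ i : Fin L, τ i = t i) :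
    noisy P L t = Pool.Agent.J4.H85.NC.comps P τ L := by
  induction L with
  | zero => rfl
  | succ L ih =>
    rw [noisy, Pool.Agent.J4.H85.NC.comps, ih (fun i => t i.castSucc) (fun i => h i.castSucc),
      ← h (Fin.last L), Fin.val_last]

theorem comp_eq (P : ℂ[X]) (n L : ℕ) (t : Fin L → ℂ) :
    (noisy P L t).comp (P.comp^[n] X) =
      Pool.Agent.J4.H85.NC.comps P (Pool.Agent.J4.H85.NC.tau n t) (n + L) := by
  rw [Pool.Agent.J4.H85.NC.comps_add]
  have h1 : Pool.Agent.J4.H85.NC.comps P (Pool.Agent.J4.H85.NC.tau n t) n = P.comp^[n] X := by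
    rw [← Pool.Agent.J4.H85.NC.comps_zero_noise]
    apply Pool.Agent.J4.H85.NC.comps_congr
    intro i hi
    apply Pool.Agent.J4.H85.NC.tau_zero
    rw [Nat.mod_eq_of_lt (by omega)]
    exact hi
  rw [h1]
  congr 1
  apply noisy_eq
  intro i
  have hi := i.2
  rw [Pool.Agent.J4.H85.NC.tau_val t hi (by rw [Nat.mod_eq_of_lt (by omega)])]

/-- Let `P` be a polynomial of degree at least two and `ε > 0`.

(1) Let `t 0, …, t (L - 1)` be independent with a law `ν` of full support in the disc of radius `ε`.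
There are constants `C` and `c > 0`, which depend only on `P`, `ε` and `ν`, such that for all `n` and
`L` the polynomial `(P + t (L - 1)) ∘ … ∘ (P + t 0) ∘ P ^ n` of degree `(deg P) ^ (n + L)` is
hyperbolic with probability at least `1 - C (n + L + 1) exp (- c L)`.

(2) In particular there is a constant `K` such that for all `n` and all `L ≥ K (1 + log (n + 1))`
there are `t 0, …, t (L - 1)` of modulus less than `ε` for which this polynomial is hyperbolic. -/
theorem result (P : ℂ[X]) (hP : 2 ≤ P.natDegree) (ε : ℝ) (hε : 0 < ε) :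
    (∀ ν : Measure ℂ, Law ε ν → ∃ C c : ℝ, 0 < C ∧ 0 < c ∧ ∀ n L : ℕ,
      (Measure.pi fun _ : Fin L => ν)
          {t : Fin L → ℂ | ¬ Hyperbolic ((noisy P L t).comp (P.comp^[n] X))} ≤
        ENNReal.ofReal (C * (n + L + 1) * Real.exp (-(c * L)))) ∧
    ∃ K : ℝ, 0 < K ∧ ∀ n L : ℕ, K * (1 + Real.log (n + 1)) ≤ L →
      ∃ t : Fin L → ℂ, (∀ i, ‖t i‖ < ε) ∧
        Hyperbolic ((noisy P L t).comp (P.comp^[n] X)) := by
  have key : ∀ T : ℂ[X], Pool.Agent.J4.H85.NC.Hyp T → Hyperbolic T := fun T hT => hT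
  constructor
  · intro ν hν
    obtain ⟨C, c, hC, hc, h⟩ := Pool.Agent.J4.H85.NC.main hP hε
      (ν := ν) ⟨hν.prob, hν.supp, hν.full⟩
    refine ⟨C, c, by linarith, hc, fun n L => ?_⟩
    refine le_trans (measure_mono ?_) (h n L)
    intro t ht ht'
    apply ht
    rw [comp_eq]
    exact key _ ht'
  · obtain ⟨K, hK, h⟩ := Pool.Agent.J4.H85.NC.few hP hε
    refine ⟨K, hK, fun n L hL => ?_⟩
    obtain ⟨t, ht, ht'⟩ := h n L hL
    refine ⟨t, ht, ?_⟩
    rw [comp_eq]
    exact key _ ht'

end Pool.Agent.Results.MP_28f8a1_an.NoisyCompositions
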