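import Mathlib
import Pool.Agent.J4.H85.AD10

/-!
# In every degree the non-hyperbolic polynomials are thin at infinity

Let `d ≥ 2` be fixed. For a polynomial `T` of degree at most `d` with large coefficients the
proportion of the polynomials in the polydisc of radius `ε` around `T` which are not hyperbolic of
degree `d` is at most `A * ‖T‖ ^ (-κ) / ε ^ 2`. In particular the distance of `T` to the hyperbolic
polynomials of degree `d` tends to zero, at least like a power of `‖T‖`, as the coefficients of `T`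
tend to infinity in an arbitrary way.
-/

set_option autoImplicit false

open Polynomial Filter Topology MeasureTheory

namespace Pool.Agent.Results.MP_28f8a1_an.ThinAtInfinity

/-- The polynomial as a self-map of the plane. -/
def map (T : ℂ[X]) : ℂ → ℂ := fun w : ℂ => T.eval w

/-- The orbit of `z` escapes to infinity. -/
def Escapes (T : ℂ[X]) (z : ℂ) : Prop :=
  Tendsto (fun k : ℕ => ‖(map T)^[k] z‖) atTop atTop

/-- The orbit of `z` is attracted by a sink (attracting periodic point) of `T`. -/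
def Attracted (T : ℂ[X]) (z : ℂ) : Prop :=
  ∃ n : ℕ, 0 < n ∧ ∃ x : ℂ, (map T)^[n] x = x ∧ ‖deriv ((map T)^[n]) x‖ < 1 ∧
    Tendsto (fun k : ℕ => (map T)^[n * k] z) atTop (𝓝 x)

/-- `T` is hyperbolic: every critical point escapes or is attracted by a sink. -/
def Hyperbolic (T : ℂ[X]) : Prop :=
  ∀ c : ℂ, (derivative T).eval c = 0 → Escapes T c ∨ Attracted T c

/-- All critical points of `T` escape to infinity (`T` is in the shift locus). -/
def AllEscape (T : ℂ[X]) : Prop :=
  ∀ c : ℂ, (derivative T).eval c = 0 → Escapes T c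

/-- The polynomial `a 0 + a 1 X + … + a d X ^ d`. The norm of the coefficient vector `a` is the
largest modulus of a coefficient, and the volume is Lebesgue measure on `ℂ ^ (d + 1)`. -/
noncomputable def poly {d : ℕ} (a : Fin (d + 1) → ℂ) : ℂ[X] :=
  ∑ i : Fin (d + 1), C (a i) * X ^ (i : ℕ)

/-- Let `d ≥ 2`. There are constants `A` and `κ > 0`, which depend only on `d`, such that the
following holds for every polynomial `T` of degree at most `d` whose largest coefficient has modulus
`‖T‖ ≥ 1` and every `0 < ε ≤ 1`.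

(1) Among all the polynomials whose coefficients are `ε`-close to those of `T` the proportion
(Lebesgue measure on `ℂ ^ (d + 1)`) of those which are not hyperbolic polynomials of degree `d` with
all critical points escaping is at most `A * ‖T‖ ^ (-κ) / ε ^ 2`.

(2) In particular, if `A * ‖T‖ ^ (-κ) < ε ^ 2` then there is a hyperbolic polynomial of degree `d`,
with all critical points escaping, whose coefficients are `ε`-close to those of `T`. -/
theorem result (d : ℕ) (hd : 2 ≤ d) : ∃ A κ : ℝ, 0 < A ∧ 0 < κ ∧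
    ∀ T : Fin (d + 1) → ℂ, 1 ≤ ‖T‖ → ∀ ε : ℝ, 0 < ε → ε ≤ 1 →
      volume {S : Fin (d + 1) → ℂ | ‖S - T‖ < ε ∧
          ¬ ((poly S).natDegree = d ∧ Hyperbolic (poly S) ∧ AllEscape (poly S))} ≤
        ENNReal.ofReal (A * ‖T‖ ^ (-κ) / ε ^ 2) * volume {S : Fin (d + 1) → ℂ | ‖S - T‖ < ε} ∧
      (A * ‖T‖ ^ (-κ) < ε ^ 2 → ∃ S : Fin (d + 1) → ℂ, (∀ i, ‖S i - T i‖ < ε) ∧
        (poly S).natDegree = d ∧ Hyperbolic (poly S) ∧ AllEscape (poly S)) := by
  have key : ∀ S : Fin (d + 1) → ℂ, Pool.Agent.J4.H85.AD.Good S →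
      (poly S).natDegree = d ∧ Hyperbolic (poly S) ∧ AllEscape (poly S) := by
    intro S hS
    exact ⟨Pool.Agent.J4.H85.AD.natDegree_poly hS.1, fun c hc => Or.inl (hS.2 c hc), hS.2⟩
  obtain ⟨A, κ, hA, hκ, h⟩ := Pool.Agent.J4.H85.AD.rate hd
  have hball : ∀ (T : Fin (d + 1) → ℂ) (ε : ℝ), {S : Fin (d + 1) → ℂ | ‖S - T‖ < ε} =
      Metric.ball T ε := by
    intro T ε
    ext S
    rw [Metric.mem_ball, dist_eq_norm]
    rfl
  refine ⟨A, κ, hA, hκ, fun T hT ε hε hε1 => ⟨?_, fun hlt => ?_⟩⟩
  · rw [hball]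
    refine (measure_mono ?_).trans (h T hT ε hε hε1)
    rintro S ⟨h1, h2⟩
    exact ⟨by rw [Metric.mem_ball, dist_eq_norm]; exact h1, fun h3 => h2 (key S h3)⟩
  · obtain ⟨S, hS1, hS2⟩ := Pool.Agent.J4.H85.AD.exists_near h hT hε hε1 hlt
    refine ⟨S, fun i => ?_, key S hS2⟩
    rw [Metric.mem_ball, dist_pi_lt_iff hε] at hS1
    have := hS1 i
    rwa [dist_eq_norm] at this

end Pool.Agent.Results.MP_28f8a1_an.ThinAtInfinity
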