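import Mathlib
import Pool.Agent.J4.H85.CB4

/-!
# Hyperbolicity is coarsely dense in all families of translations, with an explicit constant

Let `T` be an arbitrary polynomial of degree `d ≥ 2` with leading coefficient `a` and
`r = |a| ^ (- 1 / (d - 1))`. The set of the `t` for which `T + t` has a critical point which does not
escape has area at most `π e (d - 1) r ^ 2`, its images under `1`-Lipschitz functions have length at
most `4 (d - 1) r`, and its connected subsets have diameter at most `4 (d - 1) r`. The bounds do not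
depend on the other coefficients of `T`.
-/

set_option autoImplicit false

open Polynomial Filter Topology MeasureTheory Metric

namespace Pool.Agent.Results.MP_28f8a1_an.TranslationFamilies

/-- The polynomial as a self-map of the plane. -/
def map (T : ℂ[X]) : ℂ → ℂ := fun w : ℂ => T.eval w

/-- The orbit of `z` escapes to infinity. -/
def Escapes (T : ℂ[X]) (z : ℂ) : Prop :=
  Tendsto (fun k : ℕ => ‖(map T)^[k] z‖) atTop atTop

/-- The orbit of `z` is attracted by a sink (attracting periodic point) of `T`. -/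
def Attracted (T : ℂ[X]) (z : ℂ) : Prop :=
  ∃ n : ℕ, 0 < n ∧ ∃ x : ℂ, (map T)^[n] x = x ∧ ‖deriv ((map T)^[n]) x‖ < 1 ∧
    Tendsto (fun k : ℕ => (map T)^[n * k] z) atTop (𝓝 x)

/-- `T` is hyperbolic: every critical point escapes or is attracted by a sink. -/
def Hyperbolic (T : ℂ[X]) : Prop :=
  ∀ c : ℂ, (derivative T).eval c = 0 → Escapes T c ∨ Attracted T c

/-- The translations `T + t` with a critical point which does not escape. -/
def NotAllEscape (T : ℂ[X]) : Set ℂ :=
  {t | ∃ c, (derivative (T + C t)).eval c = 0 ∧ ¬ Escapes (T + C t) c}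

/-- The radius `|a| ^ (- 1 / (d - 1))`. -/
noncomputable def radius (T : ℂ[X]) : ℝ := ‖T.leadingCoeff‖ ^ (-(1 / ((T.natDegree : ℝ) - 1)))

theorem notAllEscape_eq (T : ℂ[X]) : NotAllEscape T = Pool.Agent.J4.H85.CB.Bad T := by
  ext t
  have h : derivative (T + C t) = derivative T := by simp
  constructor
  · rintro ⟨c, hc, h'⟩
    rw [h] at hc
    exact ⟨c, hc, h'⟩
  · rintro ⟨c, hc, h'⟩
    refine ⟨c, ?_, h'⟩
    rw [h]
    exact hc

theorem hyperbolic_of {T : ℂ[X]} {t : ℂ} (h : t ∉ NotAllEscape T) : Hyperbolic (T + C t) := by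
  intro c hc
  left
  by_contra hcon
  exact h ⟨c, hc, hcon⟩

/-- Let `T` be an arbitrary polynomial of degree `d ≥ 2` with leading coefficient `a`, and
`r = |a| ^ (- 1 / (d - 1))`. The polynomial `T + t` is hyperbolic, with all critical points escaping,
for all `t` outside the set `NotAllEscape T`, and

(1) for every `1`-Lipschitz function `f : ℂ → ℝ` (for instance the projection to a line) the image
`f (NotAllEscape T)` has Lebesgue outer measure at most `4 (d - 1) r`;
(2) every connected subset of `NotAllEscape T` has diameter at most `4 (d - 1) r`; hence every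
connected set of translations of larger diameter contains a `t` for which `T + t` is hyperbolic;
(3) the area of `NotAllEscape T` is at most `π e (d - 1) r ^ 2`; hence every disc of radius larger
than `√(e (d - 1)) r` contains a `t` for which `T + t` is hyperbolic.

The constants do not depend on the other coefficients of `T`. -/
theorem result (T : ℂ[X]) (hT : 2 ≤ T.natDegree) :
    (∀ t : ℂ, t ∉ NotAllEscape T → Hyperbolic (T + C t)) ∧
    (∀ f : ℂ → ℝ, LipschitzWith 1 f →
      volume (f '' NotAllEscape T) ≤ ENNReal.ofReal (4 * ((T.natDegree : ℝ) - 1) * radius T)) ∧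
    (∀ Γ : Set ℂ, IsPreconnected Γ →
      (Γ ⊆ NotAllEscape T → ∀ p ∈ Γ, ∀ q ∈ Γ,
        dist p q ≤ 4 * ((T.natDegree : ℝ) - 1) * radius T) ∧
      (∀ p ∈ Γ, ∀ q ∈ Γ, 4 * ((T.natDegree : ℝ) - 1) * radius T < dist p q →
        ∃ t ∈ Γ, Hyperbolic (T + C t))) ∧
    volume (NotAllEscape T) ≤
      ENNReal.ofReal (Real.pi * Real.exp 1 * ((T.natDegree : ℝ) - 1) * radius T ^ 2) ∧
    ∀ (s : ℂ) (ρ : ℝ), Real.sqrt (Real.exp 1 * ((T.natDegree : ℝ) - 1)) * radius T < ρ →
      ∃ t : ℂ, ‖t - s‖ < ρ ∧ Hyperbolic (T + C t) := by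
  have hconn : ∀ Γ : Set ℂ, IsPreconnected Γ → Γ ⊆ NotAllEscape T → ∀ p ∈ Γ, ∀ q ∈ Γ,
        dist p q ≤ 4 * ((T.natDegree : ℝ) - 1) * radius T := by
    intro Γ hΓ hsub p hp q hq
    rw [notAllEscape_eq] at hsub
    rw [dist_eq_norm]
    exact Pool.Agent.J4.H85.CB.bad_conn hT hΓ hsub hp hq
  refine ⟨fun t ht => hyperbolic_of ht, ?_, ?_, ?_, ?_⟩
  · intro f hf
    rw [notAllEscape_eq]
    apply Pool.Agent.J4.H85.CB.bad_image hT
    intro u v
    have := hf.dist_le_mul u v
    rwa [NNReal.coe_one, one_mul, Real.dist_eq, dist_eq_norm] at this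
  · intro Γ hΓ
    refine ⟨hconn Γ hΓ, fun p hp q hq h => ?_⟩
    by_contra hcon
    push Not at hcon
    have hsub : Γ ⊆ NotAllEscape T := by
      intro t ht
      by_contra h'
      exact hcon t ht (hyperbolic_of h')
    exact absurd (hconn Γ hΓ hsub p hp q hq) (not_le.2 h)
  · rw [notAllEscape_eq]
    exact Pool.Agent.J4.H85.CB.bad_area hT
  · intro s ρ hρ
    have hρ0 : 0 < ρ := by
      refine lt_of_le_of_lt ?_ hρ
      exact mul_nonneg (Real.sqrt_nonneg _) (Pool.Agent.J4.H85.CB.rr_pos hT).le
    obtain ⟨t, ht, ht'⟩ := Pool.Agent.J4.H85.CB.exists_good hT hρ0 hρ s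
    rw [← notAllEscape_eq] at ht'
    refine ⟨t, ?_, hyperbolic_of ht'⟩
    rw [← dist_eq_norm]
    exact ht

end Pool.Agent.Results.MP_28f8a1_an.TranslationFamilies
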